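import Pool.Agent.Y8.SK.St

/-! Closing the bootstrap (adapted from `Y287/EP/Close`). -/

open Set Filter Topology MeasureTheory

set_option autoImplicit false

namespace Pool.Agent.Y438.SK

open Pool.Agent.Y8.SK
open Pool.Agent.Y5.E (At Aw Ut Uw loc)
open Pool.Agent.Y5.F (vfk Yk Wk real_ind)
open Pool.Agent.Y6.S (Pe6 SysR Tk Rk)
open Pool.Agent.Y8.EP (EE EE_pos dd Pp Pn zz th bb nb Cur Low Ub GrowE)

variable {κ lam N Q η : ℝ} {L C ℓ : ℕ → ℝ} {B : ℕ → ℕ → ℝ} {T : ℝ} {x w f : ℕ → ℝ → ℝ}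
variable {n : ℕ} {σ : ℕ → ℝ} {t1 t : ℝ}

lemma σle (h : Stg κ lam η L T x w n σ) {i j : ℕ} (hij : i ≤ j) (hj : j ≤ n) : σ i ≤ σ j := by
  induction j, hij using Nat.le_induction with
  | base => exact le_rfl
  | succ j hij ih => exact (ih (by omega)).trans (h.σlt j (by omega)).le

lemma σnn (h : Stg κ lam η L T x w n σ) : 0 ≤ σ n := by
  have := σle h (Nat.zero_le n) le_rfl
  rwa [h.σ0] at this

lemma memI (h : Stg κ lam η L T x w n σ) (hc : Cur κ lam L T x w n σ t1)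
    (ht : t ∈ Ico (σ n) t1) : t ∈ Ico 0 T :=
  ⟨(σnn h).trans ht.1, ht.2.trans_le hc.leT⟩

/-- the shifted mode is at most `1 + C n` in the stage -/
lemma zz_le (g : Gd κ lam N Q η L C ℓ B T x w f) (h : Stg κ lam η L T x w n σ)
    (hc : Cur κ lam L T x w n σ t1) (ht : t ∈ Ico (σ n) t1) : zz C x n t ≤ 1 + C n := by
  have h1 := g.x_le (memI h hc ht) (n + 1)
  have h2 : √(Yk κ x w (n + 1) t) ≤ 1 := by
    rw [Real.sqrt_le_one]
    exact (hc.act t ht).1.le
  have h3 := le_abs_self (x (n + 1) t)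
  unfold zz
  linarith

lemma nb_le (q : Pe6 κ lam N L C ℓ B) (hz : zz C x n t ≤ 1 + C n) (j : ℕ) :
    nb lam C x n j t ≤ Real.exp (-(Pn j) * lam) := by
  have h := th_le q hz
  unfold nb
  rw [← Real.exp_add]
  apply Real.exp_le_exp.2
  unfold Pn
  push_cast
  linarith

/-! ### Continuity -/

section cont

lemma zz_cont (g : Gd κ lam N Q η L C ℓ B T x w f) : ContinuousOn (zz C x n) (Ico 0 T) :=
  (g.cont (n + 1)).add continuousOn_const

lemma th_cont (g : Gd κ lam N Q η L C ℓ B T x w f) : ContinuousOn (th lam C x n) (Ico 0 T) := by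
  have h1 : ContinuousOn (fun τ => max (zz C x n τ - 8952 / 10000) 0) (Ico 0 T) := by
    intro τ hτ
    exact ((zz_cont g τ hτ).sub continuousWithinAt_const).max continuousWithinAt_const
  exact continuousOn_const.mul (h1.pow 2)

lemma bb_cont (g : Gd κ lam N Q η L C ℓ B T x w f) (j : ℕ) :
    ContinuousOn (bb lam C x n j) (Ico 0 T) :=
  continuousOn_const.mul (th_cont g).rexp

lemma bh_cont (g : Gd κ lam N Q η L C ℓ B T x w f) (p : ℕ) :
    ContinuousOn (bh lam C x n p) (Ico 0 T) := by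
  by_cases hp : p ≤ n + 1
  · have : bh lam C x n p = fun _ => (1 : ℝ) := by
      funext τ
      exact bh_low hp
    rw [this]
    exact continuousOn_const
  · have : bh lam C x n p = bb lam C x n (p - (n + 2)) := by
      funext τ
      unfold bh
      rw [if_neg hp]
    rw [this]
    exact bb_cont g _

lemma Ysq_cont (g : Gd κ lam N Q η L C ℓ B T x w f) (m : ℕ) :
    ContinuousOn (fun τ => √(Yk κ x w m τ)) (Ico 0 T) := (g.Ycont m).sqrt

end cont

/-! ### The bootstrap hypotheses -/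

/-- the bootstrap hypotheses hold at the beginning of the stage -/
lemma hy0 (g : Gd κ lam N Q η L C ℓ B T x w f) (h : Stg κ lam η L T x w n σ) :
    Hy κ lam η C x w n (σ n) := by
  have q := g.q
  have hC := q.Cp n
  have hl := q.lamp
  have hη := g.η0
  refine ⟨?_, ?_, fun p => ?_⟩
  · have h1 := h.ng 0
    have e : Pn 0 = 603 / 10000 := by simp [Pn]
    rw [e, add_zero] at h1
    have h2 : Real.exp (-(603 / 10000) * lam)
        = Real.exp (-(601 / 10000) * lam) * Real.exp (-(2 / 10000) * lam) := by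
      rw [← Real.exp_add]; congr 1; ring
    have h3 : Real.exp (-(2 / 10000) * lam) ≤ 1 / 10 ^ 20 := q.exp_small (by norm_num)
    have h4 := q.C_lo n
    have h6 : Real.exp (-(603 / 10000) * lam) ≤ C n * (1 / 10 ^ 20) := by
      rw [h2]
      have := Real.exp_pos (-(601 / 10000) * lam)
      gcongr
    have h7 : C n * (1 / 10 ^ 20) < C n / 4 := by
      have : C n * (1 / 10 ^ 20) < C n * (1 / 4) := by
        apply mul_lt_mul_of_pos_left _ hC
        norm_num
      linarith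
    linarith
  · have h1 : √(Yk κ x w (n + 2) (σ n)) ≤ Real.exp (-(Pp 1) * lam) := h.tl 1
    have h2 : Real.exp (-(Pp 1) * lam) ≤ bb lam C x n 0 (σ n) := bb_ge q 0
    have h3 := bb_pos lam C x n 0 (σ n)
    linarith
  · rcases Nat.lt_or_ge (n + 1) p with hp | hp
    · obtain ⟨j, rfl⟩ := Nat.exists_eq_add_of_le (show n + 2 ≤ p from hp)
      have h1 : w (n + 2 + j) (σ n) ≤ η * Real.exp (-(Pp (j + 1)) * lam) := by
        have := h.tw (j + 1)
        rwa [show n + 1 + (j + 1) = n + 2 + j by ring] at this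
      have h2 := bb_ge (x := x) (n := n) (t := σ n) q j
      have h3 := bb_pos lam C x n j (σ n)
      rw [bh_tail]
      have h4 : η * Real.exp (-(Pp (j + 1)) * lam) ≤ η * bb lam C x n j (σ n) := by gcongr
      have h5 : 0 < η * bb lam C x n j (σ n) := by positivity
      linarith
    · rw [bh_low hp]
      have := h.wH (σ n) ⟨σnn h, le_rfl⟩ p
      linarith

/-- the other modes of high order are small, locally uniformly in time -/
lemma far (g : Gd κ lam N Q η L C ℓ B T x w f) (n : ℕ) {T' : ℝ} (hT' : T' < T) :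
    ∃ p0 : ℕ, ∀ τ ∈ Icc 0 T', ∀ p, p0 ≤ p → w p τ < 2 * η * bh lam C x n p τ := by
  have q := g.q
  have hl := q.lamp
  have hη := g.η0
  obtain ⟨k, hk⟩ : ∃ k : ℕ, 2 * Real.exp lam ≤ lam ^ k := by
    obtain ⟨k, hk⟩ := pow_unbounded_of_one_lt (2 * Real.exp lam)
      (show (1 : ℝ) < lam from lt_of_lt_of_le (by norm_num) q.lam_big)
    exact ⟨k, hk.le⟩
  obtain ⟨M, hM⟩ := g.sy.bdd k T' hT'
  obtain ⟨p1, hp1⟩ : ∃ p1 : ℕ, |M| / η < 2 ^ p1 :=
    pow_unbounded_of_one_lt (|M| / η) (by norm_num)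
  refine ⟨max p1 (n + 2), fun τ hτ p hp => ?_⟩
  have hp1' : p1 ≤ p := (le_max_left _ _).trans hp
  obtain ⟨j, rfl⟩ := Nat.exists_eq_add_of_le ((le_max_right _ _).trans hp)
  rw [bh_tail]
  have h0 := g.sy.w0 (n + 2 + j) τ ⟨hτ.1, hτ.2.trans_lt hT'⟩
  have h1 := hM τ hτ (n + 2 + j)
  have h2 : L (n + 2 + j) ^ k * w (n + 2 + j) τ ≤ |M| := by
    have h3 : L (n + 2 + j) ^ k * w (n + 2 + j) τ ≤
        L (n + 2 + j) ^ k * (|x (n + 2 + j) τ| + w (n + 2 + j) τ) := by
      have h4 := abs_nonneg (x (n + 2 + j) τ)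
      have h5 := pow_pos (q.Lp (n + 2 + j)) k
      apply mul_le_mul_of_nonneg_left _ h5.le
      linarith
    exact h3.trans (h1.trans (le_abs_self M))
  have h3 : (2 * Real.exp lam) ^ (n + 2 + j) ≤ L (n + 2 + j) ^ k := by
    calc (2 * Real.exp lam) ^ (n + 2 + j) ≤ (lam ^ k) ^ (n + 2 + j) := by gcongr
      _ = (lam ^ (n + 2 + j)) ^ k := by rw [← pow_mul, ← pow_mul, mul_comm]
      _ ≤ L (n + 2 + j) ^ k := by
          have := q.Lpow (n + 2 + j)
          gcongr
  have h4 : (2 : ℝ) ^ (n + 2 + j) * (Real.exp lam ^ (n + 2 + j) * w (n + 2 + j) τ) ≤ |M| := by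
    calc (2 : ℝ) ^ (n + 2 + j) * (Real.exp lam ^ (n + 2 + j) * w (n + 2 + j) τ)
        = (2 * Real.exp lam) ^ (n + 2 + j) * w (n + 2 + j) τ := by rw [mul_pow]; ring
      _ ≤ L (n + 2 + j) ^ k * w (n + 2 + j) τ := by gcongr
      _ ≤ |M| := h2
  have h5 : |M| < η * 2 ^ (n + 2 + j) := by
    have h6 : (2 : ℝ) ^ p1 ≤ 2 ^ (n + 2 + j) := pow_le_pow_right₀ (by norm_num) hp1'
    have h7 : |M| < η * 2 ^ p1 := by
      rw [div_lt_iff₀ hη] at hp1
      linarith
    have h8 : η * 2 ^ p1 ≤ η * 2 ^ (n + 2 + j) := by gcongr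
    linarith
  have h6 : Real.exp lam ^ (n + 2 + j) * w (n + 2 + j) τ < η := by
    have h7 : (2 : ℝ) ^ (n + 2 + j) * (Real.exp lam ^ (n + 2 + j) * w (n + 2 + j) τ) <
        2 ^ (n + 2 + j) * η := by linarith
    exact lt_of_mul_lt_mul_left h7 (by positivity)
  have h7 : Real.exp (-(Pp (j + 1)) * lam) * Real.exp lam ^ (n + 2 + j) ≥ 1 := by
    rw [← Real.exp_nat_mul, ← Real.exp_add, ge_iff_le]
    apply Real.one_le_exp
    unfold Pp
    push_cast
    have hn : (0 : ℝ) ≤ n := Nat.cast_nonneg _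
    have hj : (0 : ℝ) ≤ j := Nat.cast_nonneg _
    have e : -(4 / 1000 + 558 / 10000 * ((j : ℝ) + 1)) * lam + ((n : ℝ) + 2 + j) * lam =
        ((n : ℝ) + (2 - 4 / 1000 - 558 / 10000) + (1 - 558 / 10000) * j) * lam := by ring
    rw [e]
    apply mul_nonneg _ hl.le
    have : (0 : ℝ) ≤ (1 - 558 / 10000) * j := mul_nonneg (by norm_num) hj
    linarith
  have h8 := bb_ge (x := x) (n := n) (t := τ) q j
  have h9 : 0 < Real.exp lam ^ (n + 2 + j) := by positivity
  have h10 : w (n + 2 + j) τ < η * Real.exp (-(Pp (j + 1)) * lam) := by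
    by_contra hcon
    push Not at hcon
    have h11 : Real.exp lam ^ (n + 2 + j) * (η * Real.exp (-(Pp (j + 1)) * lam)) ≤
        Real.exp lam ^ (n + 2 + j) * w (n + 2 + j) τ := by gcongr
    have h12 : η * 1 ≤ Real.exp lam ^ (n + 2 + j) * (η * Real.exp (-(Pp (j + 1)) * lam)) := by
      calc η * 1 ≤ η * (Real.exp (-(Pp (j + 1)) * lam) * Real.exp lam ^ (n + 2 + j)) := by gcongr
        _ = _ := by ring
    linarith
  have h13 : η * Real.exp (-(Pp (j + 1)) * lam) ≤ η * bb lam C x n j τ := by gcongr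
  have h14 := bb_pos lam C x n j τ
  have h15 : 0 < η * bb lam C x n j τ := by positivity
  linarith

/-- the bootstrap hypotheses are an open condition -/
lemma hyopen (g : Gd κ lam N Q η L C ℓ B T x w f) (h : Stg κ lam η L T x w n σ)
    (hc : Cur κ lam L T x w n σ t1) (ht : t ∈ Ico (σ n) t1) (hy : Hy κ lam η C x w n t) :
    ∀ᶠ τ in 𝓝[Ico (σ n) t1] t, Hy κ lam η C x w n τ := by
  have hsub : Ico (σ n) t1 ⊆ Ico 0 T := fun τ hτ => memI h hc hτ
  have hI := hsub ht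
  have hxc : ContinuousWithinAt (fun τ => x (n + 1) τ) (Ico (σ n) t1) t :=
    ((g.cont (n + 1)).mono hsub) t ht
  have hbc : ContinuousWithinAt (fun τ => 2 * bb lam C x n 0 τ) (Ico (σ n) t1) t :=
    continuousWithinAt_const.mul (((bb_cont g 0).mono hsub) t ht)
  have hYc : ContinuousWithinAt (fun τ => √(Yk κ x w (n + 2) τ)) (Ico (σ n) t1) t :=
    ((Ysq_cont g (n + 2)).mono hsub) t ht
  have e1 : ∀ᶠ τ in 𝓝[Ico (σ n) t1] t, -(C n / 4) < x (n + 1) τ :=
    (tendsto_const_nhds).eventually_lt hxc hy.r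
  have e2 : ∀ᶠ τ in 𝓝[Ico (σ n) t1] t, √(Yk κ x w (n + 2) τ) < 2 * bb lam C x n 0 τ :=
    hYc.eventually_lt hbc hy.Y
  obtain ⟨T', hT1, hT2⟩ := exists_between hI.2
  obtain ⟨p0, hp0⟩ := far g n hT2
  have e3 : ∀ᶠ τ in 𝓝[Ico (σ n) t1] t, τ < T' :=
    mem_nhdsWithin_of_mem_nhds (Iio_mem_nhds hT1)
  have e4 : ∀ᶠ τ in 𝓝[Ico (σ n) t1] t, ∀ p ∈ Finset.range p0,
      w p τ < 2 * η * bh lam C x n p τ := by
    rw [Filter.eventually_all_finset]
    intro p _
    have hwc : ContinuousWithinAt (fun τ => w p τ) (Ico (σ n) t1) t :=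
      ((g.wcont p).mono hsub) t ht
    have hbc' : ContinuousWithinAt (fun τ => 2 * η * bh lam C x n p τ) (Ico (σ n) t1) t :=
      continuousWithinAt_const.mul (((bh_cont g p).mono hsub) t ht)
    exact hwc.eventually_lt hbc' (hy.W p)
  filter_upwards [e1, e2, e3, e4, self_mem_nhdsWithin] with τ h1 h2 h3 h4 h5
  refine ⟨h1, h2, fun p => ?_⟩
  rcases Nat.lt_or_ge p p0 with hp | hp
  · exact h4 p (Finset.mem_range.2 hp)
  · exact hp0 τ ⟨(hsub h5).1, h3.le⟩ p hp

/-- the current stage up to an earlier time -/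
lemma Cur.cut (hc : Cur κ lam L T x w n σ t1) (ht : t ∈ Ioc (σ n) t1) :
    Cur κ lam L T x w n σ t :=
  ⟨ht.1, ht.2.trans hc.leT, ht.2.trans hc.le, fun τ hτ => hc.act τ ⟨hτ.1, hτ.2.trans_le ht.2⟩⟩

/-- pointwise hypotheses -/
lemma mkPt (g : Gd κ lam N Q η L C ℓ B T x w f) (h : Stg κ lam η L T x w n σ)
    (hc : Cur κ lam L T x w n σ t1) (ub : Ub κ lam L x w n σ t1) (ht : t ∈ Ico (σ n) t1)
    (hy : Hy κ lam η C x w n t) (hY : ∀ j : ℕ, √(Yk κ x w (n + 2 + j) t) ≤ bb lam C x n j t) :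
    Pt κ lam η L C T x w n t := by
  have hC := g.q.Cp n
  have h1 : ∀ p ≤ n + 1, √(Yk κ x w p t) ≤ 3 / 2 := by
    intro p hp
    rcases Nat.lt_or_ge n p with hp' | hp'
    · have : p = n + 1 := by omega
      subst this
      have h2 : √(Yk κ x w (n + 1) t) ≤ 1 := by
        rw [Real.sqrt_le_one]
        exact (hc.act t ht).1.le
      linarith
    · exact ub.Y p hp' t ⟨(σle h hp' le_rfl).trans ht.1, ht.2⟩
  refine ⟨memI h hc ht, ?_, zz_le g h hc ht, fun p => ?_, h1, fun p => (hy.W p).le⟩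
  · have := hy.r
    unfold zz
    linarith
  · rcases Nat.lt_or_ge (n + 1) p with hp | hp
    · obtain ⟨j, rfl⟩ := Nat.exists_eq_add_of_le (show n + 2 ≤ p from hp)
      rw [bh_tail]
      have h2 := hY j
      have h3 := bb_pos lam C x n j t
      linarith
    · rw [bh_low hp]
      have := h1 p hp
      linarith

theorem t_CLOSE : S_CLOSE := by
  intro hU hR hBY hRK hBV hB2 κ lam N N₂ Q η A H L C ℓ B T x w v f n σ t1 g sv kon h vs hc
  have q := g.q
  have hC := q.Cp n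
  have hη := g.η0
  -- a priori bounds up to the time `t`, from the bootstrap hypotheses
  have hub : ∀ t ∈ Ioc (σ n) t1, (∀ τ ∈ Ico (σ n) t, Hy κ lam η C x w n τ) →
      Ub κ lam L x w n σ t := by
    intro t ht hy
    have hc' := Cur.cut hc ht
    refine (hU κ lam N Q η L C ℓ B T x w f n σ t g h hc'.leT hc'.le ?_).1
    intro τ hτ p
    rcases le_or_gt τ (σ n) with hτn | hτn
    · have := h.wH τ ⟨hτ.1, hτn⟩ p
      linarith
    · have hm : τ ∈ Ico (σ n) t := ⟨hτn.le, hτ.2⟩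
      have h1 := (hy τ hm).W p
      have h2 := bh_le_one q (zz_le g h hc' hm) p
      have h3 : 2 * η * bh lam C x n p τ ≤ 2 * η * 1 := by gcongr
      linarith
  -- the conclusions up to the time `s`, `s < t`
  have hcon : ∀ t ∈ Ioc (σ n) t1, (∀ τ ∈ Ico (σ n) t, Hy κ lam η C x w n τ) →
      ∀ s ∈ Ioo (σ n) t, BH κ lam N Q η L C ℓ B T x w f n σ t s ∧
        9998 / 10000 ≤ x n s ∧ (s - σ n) * L n ≤ 611 / 1000 * lam ∧
        (∀ τ ∈ Icc (σ n) s, ∀ j : ℕ, √(Yk κ x w (n + 2 + j) τ) ≤ bb lam C x n j τ) ∧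
        ∀ τ ∈ Icc (σ n) s, VD lam N₂ Q H A L C x v n σ τ ∧
          ∀ p, w p τ ≤ η * bh lam C x n p τ := by
    intro t ht hy s hs
    have hc' := Cur.cut hc ht
    have ub := hub t ht hy
    obtain ⟨h1, h2, h3, h4⟩ := hR κ lam N Q η L C ℓ B T x w f n σ t s g h hc' ub hs
      (fun τ hτ => hy τ ⟨hτ.1, hτ.2.trans hs.2⟩)
    have bh : BH κ lam N Q η L C ℓ B T x w f n σ t s :=
      ⟨g, h, hc', ub, hs, fun τ hτ => hy τ ⟨hτ.1, hτ.2.trans hs.2⟩, h2, h1⟩
    have hY := hBY κ lam N Q η L C ℓ B T x w f n σ t s bh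
    refine ⟨bh, h3, h4, hY, ?_⟩
    refine hBV κ lam N N₂ Q η A H L C ℓ B T x w v f n σ t s bh sv kon vs hY ?_
    intro τ hτ
    have hm : τ ∈ Ico (σ n) t := ⟨hτ.1, hτ.2.trans_lt hs.2⟩
    exact hRK κ lam N Q η L C ℓ B T x w f n τ g (mkPt g h hc' ub hm (hy τ hm) (hY τ hτ))
  have hall : ∀ t ∈ Ico (σ n) t1, Hy κ lam η C x w n t := by
    refine real_ind (hy0 g h) (fun t ht hy => hyopen g h hc ht hy) (fun t ht hy => ?_)
    have hc2 := hcon t ⟨ht.1, ht.2.le⟩ hy
    have hI : t ∈ Ico 0 T := memI h hc ⟨ht.1.le, ht.2⟩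
    have hsub : Ioo (σ n) t ⊆ Ico 0 T := fun τ hτ =>
      ⟨(σnn h).trans hτ.1.le, hτ.2.trans hI.2⟩
    have hcl : t ∈ closure (Ioo (σ n) t) := by
      rw [closure_Ioo ht.1.ne]
      exact ⟨ht.1.le, le_rfl⟩
    have a1 : 7 / 8 * C n ≤ zz C x n t :=
      ContinuousWithinAt.closure_le (f := fun _ => 7 / 8 * C n) (g := zz C x n) hcl
        continuousWithinAt_const ((zz_cont g t hI).mono hsub) (fun s hs => (hc2 s hs).1.hr)
    have a2 : √(Yk κ x w (n + 2) t) ≤ bb lam C x n 0 t :=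
      ContinuousWithinAt.closure_le hcl ((Ysq_cont g (n + 2) t hI).mono hsub)
        ((bb_cont g 0 t hI).mono hsub)
        (fun s hs => (hc2 s hs).2.2.2.1 s ⟨hs.1.le, le_rfl⟩ 0)
    have a3 : ∀ p, w p t ≤ η * bh lam C x n p t := fun p =>
      ContinuousWithinAt.closure_le hcl ((g.wcont p t hI).mono hsub)
        (continuousWithinAt_const.mul ((bh_cont g p t hI).mono hsub))
        (fun s hs => ((hc2 s hs).2.2.2.2 s ⟨hs.1.le, le_rfl⟩).2 p)
    refine ⟨?_, ?_, fun p => ?_⟩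
    · unfold zz at a1
      linarith
    · have := bb_pos lam C x n 0 t
      linarith
    · have h1 := a3 p
      have h2 := bh_pos (lam := lam) (C := C) (x := x) (n := n) (t := t) p
      have h3 : 0 < η * bh lam C x n p t := by positivity
      linarith
  intro t ht
  obtain ⟨bh, hX, htime, hY, hV⟩ := hcon t1 ⟨hc.lt, le_rfl⟩ hall t ht
  obtain ⟨hVt, hWt⟩ := hV t ⟨ht.1.le, le_rfl⟩
  have hYt := hY t ⟨ht.1.le, le_rfl⟩
  have hz := zz_le g h hc (t := t) ⟨ht.1.le, ht.2⟩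
  have hb2 := hB2 κ lam N Q η L C ℓ B T x w f n σ t1 t bh hY (fun τ hτ p => by
    have h1 := (hV τ hτ).2 p
    have h2 := bh_pos (lam := lam) (C := C) (x := x) (n := n) (t := τ) p
    have h3 : 0 < η * Pool.Agent.Y8.SK.bh lam C x n p τ := by positivity
    linarith) t ⟨ht.1.le, le_rfl⟩
  have hr8 := bh.hr
  refine ⟨hX, htime, ?_, fun p => ?_, fun j => (hYt j).trans (bb_le q hz j), fun j => ?_,
    fun j => ?_, fun G => ?_⟩
  · unfold zz at hr8
    linarith
  · refine (hWt p).trans ?_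
    have := bh_le_one q hz p
    calc η * Pool.Agent.Y8.SK.bh lam C x n p t ≤ η * 1 := by gcongr
      _ = η := mul_one _
  · have h1 := hWt (n + 2 + j)
    rw [bh_tail] at h1
    refine h1.trans ?_
    have := bb_le q hz j
    gcongr
  · have h1 := hb2 j
    have h2 := nb_le q hz j
    linarith
  · refine (hVt G).trans ?_
    have hQ : 0 ≤ 1 / Q := by
      have := kon.Q1
      positivity
    refine mul_le_mul_of_nonneg_left ?_ hQ
    by_cases hG : 2 * G ≤ n
    · rw [if_pos hG, if_pos hG]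
    · rw [if_neg hG, if_neg hG]
      have hH : 0 ≤ H (2 * G - n - 1) := by
        have h1 := kon.Hb (2 * G - n - 1)
        have h2 := kon.N₂1
        have h3 := q.lamp
        have h4 : 0 ≤ 4000 * N₂ * lam * Real.exp lam := by positivity
        linarith
      refine mul_le_mul_of_nonneg_left ?_ hH
      by_cases hG2 : 2 * G = n + 1
      · rw [if_pos hG2, bh_low hG2.le]
      · rw [if_neg hG2]
        obtain ⟨j, hj⟩ := Nat.exists_eq_add_of_le (show n + 2 ≤ 2 * G by omega)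
        rw [hj, bh_tail, show n + 2 + j - n - 2 = j by omega]
        exact bb_le q hz j

end Pool.Agent.Y438.SK
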