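import Pool.Agent.Y6.S.Stm
import Pool.Agent.Y6.S.Conv

/-!
Job SK-NF: the equation of the corrected other modes.
-/

open Set Filter Topology MeasureTheory

set_option autoImplicit false

namespace Pool.Agent.Y438.SK

open Pool.Agent.Y6.S
open Pool.Agent.Y5.D Pool.Agent.Y5.E
open Pool.Agent.Y6.N (lin)
open Pool.Agent.Y5.S2 (Sq6 Rot2 Om Az Dis2 NSol2 Init2)
open Pool.Agent.Y710.EP (Pm Po Nice bl_summable)

section alg

variable {J : Type} {g : J → ℕ} {σ : J → J} {τ : J → ℝ}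
  {κ μ lam Λ M a D₁ Q : ℝ} {L C ℓ : ℕ → ℝ} {B : ℕ → ℕ → ℝ} {D : Ix J → Ix J → ℝ}
  {c : Ix J → Ix J → Ix J → ℝ}

/-! ### Speeds -/

theorem kL (hs : Sq6 κ μ lam Λ M L C ℓ B) (n : ℕ) : κ ^ n * L n = μ ^ n * L 0 := by
  induction n with
  | zero => simp
  | succ n ih =>
    rw [hs.L_succ, pow_succ, pow_succ, show κ ^ n * κ * (lam * L n) = (κ * lam) * (κ ^ n * L n) by
      ring, ih, ← hs.μ_eq]
    ring

theorem Om_eq (hs : Sq6 κ μ lam Λ M L C ℓ B) (q : ℕ) : Om Q κ L q = Q * L 0 * μ ^ (2 * q) := by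
  unfold Om
  rw [kL hs]
  ring

theorem Om_pos (hs : Sq6 κ μ lam Λ M L C ℓ B) (hQ : 0 < Q) (q : ℕ) : 0 < Om Q κ L q := by
  have hμ : 0 < μ := lt_of_lt_of_le (by norm_num) hs.μ_big
  have hL0 : 0 < L 0 := lt_of_lt_of_le one_pos hs.L0
  rw [Om_eq hs]
  positivity

theorem Om_two (hs : Sq6 κ μ lam Λ M L C ℓ B) (hQ : 0 < Q) {p q : ℕ} (h : p < q) :
    2 * Om Q κ L p ≤ Om Q κ L q := by
  have hμ : 0 < μ := lt_of_lt_of_le (by norm_num) hs.μ_big
  have hμ2 : 2 ≤ μ := le_trans (by norm_num) hs.μ_big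
  have hL0 : 0 < L 0 := lt_of_lt_of_le one_pos hs.L0
  rw [Om_eq hs, Om_eq hs]
  have h1 : μ ^ (2 * p + 1) ≤ μ ^ (2 * q) := pow_le_pow_right₀ (by linarith) (by omega)
  have h2 : 2 * μ ^ (2 * p) ≤ μ ^ (2 * p + 1) := by
    rw [pow_succ]
    have : 0 < μ ^ (2 * p) := by positivity
    nlinarith
  calc 2 * (Q * L 0 * μ ^ (2 * p)) = Q * L 0 * (2 * μ ^ (2 * p)) := by ring
    _ ≤ Q * L 0 * μ ^ (2 * q) := by
      have := h2.trans h1
      gcongr

theorem frac {x y : ℝ} (hx : 0 < x) (hy : 0 < y) (h : 2 * x ≤ y ∨ 2 * y ≤ x) :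
    x ^ 2 - y ^ 2 ≠ 0 ∧ |x / (x ^ 2 - y ^ 2)| ≤ 2 / x ∧ |y / (x ^ 2 - y ^ 2)| ≤ 2 / x := by
  rcases h with h | h
  · have h0 : 0 < y ^ 2 - x ^ 2 := by nlinarith
    have e1 : x / (x ^ 2 - y ^ 2) = -(x / (y ^ 2 - x ^ 2)) := by
      rw [← neg_sub (y ^ 2) (x ^ 2), div_neg]
    have e2 : y / (x ^ 2 - y ^ 2) = -(y / (y ^ 2 - x ^ 2)) := by
      rw [← neg_sub (y ^ 2) (x ^ 2), div_neg]
    refine ⟨by intro h1; linarith, ?_, ?_⟩
    · rw [e1, abs_neg, abs_of_nonneg (by positivity), div_le_div_iff₀ h0 hx]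
      nlinarith
    · rw [e2, abs_neg, abs_of_nonneg (by positivity), div_le_div_iff₀ h0 hx]
      nlinarith
  · have h0 : 0 < x ^ 2 - y ^ 2 := by nlinarith
    refine ⟨h0.ne', ?_, ?_⟩
    · rw [abs_of_nonneg (by positivity), div_le_div_iff₀ h0 hx]
      nlinarith
    · rw [abs_of_nonneg (by positivity), div_le_div_iff₀ h0 hx]
      nlinarith

theorem Om_frac (hs : Sq6 κ μ lam Λ M L C ℓ B) (hQ : 0 < Q) {G q : ℕ} (h : q ≠ G) :
    Om Q κ L G ^ 2 - Om Q κ L q ^ 2 ≠ 0 ∧
    |Om Q κ L G / (Om Q κ L G ^ 2 - Om Q κ L q ^ 2)| ≤ 2 / Om Q κ L G ∧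
    |Om Q κ L q / (Om Q κ L G ^ 2 - Om Q κ L q ^ 2)| ≤ 2 / Om Q κ L G := by
  apply frac (Om_pos hs hQ _) (Om_pos hs hQ _)
  rcases lt_or_gt_of_ne h with h | h
  · exact Or.inr (Om_two hs hQ h)
  · exact Or.inl (Om_two hs hQ h)

theorem wα_le (hs : Sq6 κ μ lam Λ M L C ℓ B) (hQ : 0 < Q) (G q : ℕ) :
    |wα (Om Q κ L) G q| ≤ 2 / Om Q κ L G := by
  unfold wα
  split_ifs with h
  · have := Om_pos hs hQ G
    rw [abs_zero]
    positivity
  · exact (Om_frac hs hQ h).2.1

theorem wβ_le (hs : Sq6 κ μ lam Λ M L C ℓ B) (hQ : 0 < Q) (G q : ℕ) :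
    |wβ (Om Q κ L) G q| ≤ 2 / Om Q κ L G := by
  unfold wβ
  split_ifs with h
  · have := Om_pos hs hQ G
    rw [abs_zero]
    positivity
  · exact (Om_frac hs hQ h).2.2

theorem w1_le (G q : ℕ) : |w1 G q| ≤ 1 := by
  unfold w1
  split_ifs <;> simp

theorem αO (G q : ℕ) :
    wα (Om Q κ L) G q * Om Q κ L q = Om Q κ L G * wβ (Om Q κ L) G q := by
  unfold wα wβ
  split_ifs with h
  · simp
  · ring

theorem βO (hs : Sq6 κ μ lam Λ M L C ℓ B) (hQ : 0 < Q) (G q : ℕ) :
    wβ (Om Q κ L) G q * Om Q κ L q = Om Q κ L G * wα (Om Q κ L) G q - 1 + w1 G q := by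
  unfold wα wβ w1
  split_ifs with h
  · simp
  · have h1 := (Om_frac hs hQ h).1
    field_simp
    ring

/-! ### Rotations and weights -/

theorem Az_eq (z : Ix J → ℝ) : Az Q κ L g σ τ z = wt g (Om Q κ L) (rt σ τ z) := by
  funext i
  cases i with
  | inl n => rfl
  | inr j =>
    show Om Q κ L (g j / 2) * τ j * z (Sum.inr (σ j)) =
      Om Q κ L (g j / 2) * (τ j * z (Sum.inr (σ j)))
    ring

theorem Pm_Az (z r : Ix J → ℝ) : Pm (fun i => Az Q κ L g σ τ z i + r i) = Pm r := by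
  funext i
  cases i with
  | inl n =>
    show Az Q κ L g σ τ z (Sum.inl n) + r (Sum.inl n) = r (Sum.inl n)
    show (0 : ℝ) + r (Sum.inl n) = r (Sum.inl n)
    ring
  | inr j => rfl

theorem wtα_Az (G : ℕ) (z r : Ix J → ℝ) :
    wt g (wα (Om Q κ L) G) (fun i => Az Q κ L g σ τ z i + r i) =
    fun i => Om Q κ L G * wt g (wβ (Om Q κ L) G) (rt σ τ z) i + wt g (wα (Om Q κ L) G) r i := by
  funext i
  cases i with
  | inl n =>
    show (0 : ℝ) = Om Q κ L G * 0 + 0
    ring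
  | inr j =>
    show wα (Om Q κ L) G (g j / 2) * (Om Q κ L (g j / 2) * τ j * z (Sum.inr (σ j)) + r (Sum.inr j))
      = Om Q κ L G * (wβ (Om Q κ L) G (g j / 2) * (τ j * z (Sum.inr (σ j)))) +
        wα (Om Q κ L) G (g j / 2) * r (Sum.inr j)
    have h := αO (Q := Q) (κ := κ) (L := L) G (g j / 2)
    linear_combination (τ j * z (Sum.inr (σ j))) * h

theorem wtβ_Az (hs : Sq6 κ μ lam Λ M L C ℓ B) (hr : Rot2 g σ τ) (hQ : 0 < Q) (G : ℕ)
    (z r : Ix J → ℝ) :
    wt g (wβ (Om Q κ L) G) (rt σ τ (fun i => Az Q κ L g σ τ z i + r i)) =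
    fun i => (-Om Q κ L G * wt g (wα (Om Q κ L) G) z i + (Po z i + -1 * wt g (w1 G) z i)) +
      wt g (wβ (Om Q κ L) G) (rt σ τ r) i := by
  funext i
  cases i with
  | inl n =>
    show (0 : ℝ) = (-Om Q κ L G * 0 + (0 + -1 * 0)) + 0
    ring
  | inr j =>
    show wβ (Om Q κ L) G (g j / 2) * (τ j * (Om Q κ L (g (σ j) / 2) * τ (σ j) *
        z (Sum.inr (σ (σ j))) + r (Sum.inr (σ j))))
      = (-Om Q κ L G * (wα (Om Q κ L) G (g j / 2) * z (Sum.inr j)) +
        (z (Sum.inr j) + -1 * (w1 G (g j / 2) * z (Sum.inr j)))) +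
        wβ (Om Q κ L) G (g j / 2) * (τ j * r (Sum.inr (σ j)))
    rw [hr.inv, hr.grp, hr.skew]
    have h := βO (Q := Q) hs hQ G (g j / 2)
    have h2 := hr.unit j
    linear_combination (-z (Sum.inr j)) * h -
      wβ (Om Q κ L) G (g j / 2) * Om Q κ L (g j / 2) * z (Sum.inr j) * h2

/-! ### Bilinearity -/

theorem bl_add2 (hK : Ker g Λ M L C B c) (hs : Sq6 κ μ lam Λ M L C ℓ B) {u v w : Ix J → ℝ}
    (hu : Nice g L u) (hv : Nice g L v) (hw : Nice g L w) (i : Ix J) :
    bl c u (fun a => v a + w a) i = bl c u v i + bl c u w i := by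
  have hs5 := sq65 hs
  unfold bl
  rw [← (bl_summable hK hs5 hu hv i).1.tsum_add (bl_summable hK hs5 hu hw i).1]
  exact tsum_congr fun p => by ring

theorem bl_add1 (hK : Ker g Λ M L C B c) (hs : Sq6 κ μ lam Λ M L C ℓ B) {u v w : Ix J → ℝ}
    (hu : Nice g L u) (hv : Nice g L v) (hw : Nice g L w) (i : Ix J) :
    bl c (fun a => v a + w a) u i = bl c v u i + bl c w u i := by
  have hs5 := sq65 hs
  unfold bl
  rw [← (bl_summable hK hs5 hv hu i).1.tsum_add (bl_summable hK hs5 hw hu i).1]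
  exact tsum_congr fun p => by ring

theorem bs_add (hK : Ker g Λ M L C B c) (hs : Sq6 κ μ lam Λ M L C ℓ B) {u v w : Ix J → ℝ}
    (hu : Nice g L u) (hv : Nice g L v) (hw : Nice g L w) (i : Ix J) :
    bs c u (fun a => v a + w a) i = bs c u v i + bs c u w i := by
  unfold bs
  rw [bl_add1 hK hs hu hv hw, bl_add2 hK hs hu hv hw]
  ring

theorem bs_mul (x : ℝ) (u v : Ix J → ℝ) (i : Ix J) :
    bs c u (fun a => x * v a) i = x * bs c u v i := by
  unfold bs bl
  rw [mul_add, ← tsum_mul_left, ← tsum_mul_left]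
  congr 1
  · exact tsum_congr fun p => by ring
  · exact tsum_congr fun p => by ring

theorem bl_four (hK : Ker g Λ M L C B c) (hs : Sq6 κ μ lam Λ M L C ℓ B) {z : Ix J → ℝ}
    (hm : Nice g L (Pm z)) (ho : Nice g L (Po z)) (i : Ix J) :
    bl c z z i = bl c (Pm z) (Pm z) i + bs c (Pm z) (Po z) i + bl c (Po z) (Po z) i := by
  have e : z = fun a => Pm z a + Po z a := by
    funext a
    cases a with
    | inl n => show z (Sum.inl n) = z (Sum.inl n) + 0; ring
    | inr j => show z (Sum.inr j) = 0 + z (Sum.inr j); ring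
  have hz : Nice g L (fun a => Pm z a + Po z a) := hm.add (sq65 hs) ho
  have h1 : bl c z z i = bl c (fun a => Pm z a + Po z a) (fun a => Pm z a + Po z a) i := by
    rw [← e]
  rw [h1, bl_add1 hK hs hz hm ho, bl_add2 hK hs hm hm ho, bl_add2 hK hs ho hm ho]
  unfold bs
  ring

theorem fin_gr (hK : Ker g Λ M L C B c) (n : ℕ) : {b : Ix J | gr g b = n}.Finite := by
  have h : {b : Ix J | gr g b = n} ⊆ {Sum.inl n} ∪ Sum.inr '' {j | g j = n} := by
    rintro (m | j) hb
    · left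
      have : m = n := hb
      rw [this]
      rfl
    · right
      exact ⟨j, hb, rfl⟩
  exact ((finite_singleton _).union ((hK.fin n).image _)).subset h

theorem lin_add (hK : Ker g Λ M L C B c) (hd : Dis2 g a D₁ κ L ℓ D) (u v : Ix J → ℝ) (i : Ix J) :
    lin D (fun b => u b + v b) i = lin D u i + lin D v i := by
  have hf : ∀ w : Ix J → ℝ, Summable (fun b => D i b * w b) := by
    intro w
    refine summable_of_hasFiniteSupport ((fin_gr hK (gr g i)).subset ?_)
    intro b hb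
    have : D i b ≠ 0 := by
      intro h0
      apply hb
      show D i b * w b = 0
      rw [h0, zero_mul]
    exact (hd.blk i b this).symm
  unfold lin
  rw [← (hf u).tsum_add (hf v)]
  exact tsum_congr fun b => by ring

theorem lin_two (hK : Ker g Λ M L C B c) (hd : Dis2 g a D₁ κ L ℓ D) (z : Ix J → ℝ) (i : Ix J) :
    lin D z i = lin D (Pm z) i + lin D (Po z) i := by
  have e : z = fun a => Pm z a + Po z a := by
    funext a
    cases a with
    | inl n => show z (Sum.inl n) = z (Sum.inl n) + 0; ring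
    | inr j => show z (Sum.inr j) = 0 + z (Sum.inr j); ring
  have h1 : lin D z i = lin D (fun a => Pm z a + Po z a) i := by rw [← e]
  rw [h1, lin_add hK hd]

/-! ### Rapidly decreasing vectors -/

theorem RpU.add {T : ℝ} {u v : Ix J → ℝ → ℝ} (hu : RpU g L T u) (hv : RpU g L T v)
    (hL : ∀ n, 0 ≤ L n) : RpU g L T (fun i t => u i t + v i t) := by
  intro k T' hT'
  obtain ⟨K1, h1⟩ := hu k T' hT'
  obtain ⟨K2, h2⟩ := hv k T' hT'
  refine ⟨K1 + K2, fun t ht b => ?_⟩
  have h3 := h1 t ht b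
  have h4 := h2 t ht b
  calc L (gr g b) ^ k * |u b t + v b t| ≤ L (gr g b) ^ k * (|u b t| + |v b t|) :=
        mul_le_mul_of_nonneg_left (abs_add_le _ _) (pow_nonneg (hL _) _)
    _ = L (gr g b) ^ k * |u b t| + L (gr g b) ^ k * |v b t| := by ring
    _ ≤ K1 + K2 := add_le_add h3 h4

theorem RpU.neg {T : ℝ} {u : Ix J → ℝ → ℝ} (hu : RpU g L T u) :
    RpU g L T (fun i t => -u i t) := by
  intro k T' hT'
  obtain ⟨K1, h1⟩ := hu k T' hT'
  refine ⟨K1, fun t ht b => ?_⟩
  rw [abs_neg]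
  exact h1 t ht b

theorem RpU.om (hs : Sq6 κ μ lam Λ M L C ℓ B) (hQ : 0 < Q) {T : ℝ} {u : Ix J → ℝ → ℝ}
    (hu : RpU g L T u) : RpU g L T (fun i t => wt g (Om Q κ L) (fun b => u b t) i) := by
  have hs5 := sq65 hs
  have hL1 := Pool.Agent.Y710.EP.L_one hs5
  intro k T' hT'
  obtain ⟨K1, h1⟩ := hu (k + 1) T' hT'
  refine ⟨Q * |K1|, fun t ht b => ?_⟩
  cases b with
  | inl n =>
    show L n ^ k * |(0 : ℝ)| ≤ Q * |K1|
    rw [abs_zero, mul_zero]
    positivity
  | inr j =>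
    show L (g j) ^ k * |Om Q κ L (g j / 2) * u (Sum.inr j) t| ≤ Q * |K1|
    have h2 : L (g j) ^ (k + 1) * |u (Sum.inr j) t| ≤ K1 := h1 t ht (Sum.inr j)
    have h3 : Om Q κ L (g j / 2) ≤ Q * L (g j) := by
      unfold Om
      have h4 : κ ^ (2 * (g j / 2)) ≤ 1 := pow_le_one₀ hs.κ0.le hs.κ1
      have h5 : L (2 * (g j / 2)) ≤ L (g j) := Pool.Agent.Y710.EP.L_mono hs5 (by omega)
      have h6 := hL1 (2 * (g j / 2))
      have h7 : κ ^ (2 * (g j / 2)) * L (2 * (g j / 2)) ≤ 1 * L (2 * (g j / 2)) :=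
        mul_le_mul_of_nonneg_right h4 (by linarith)
      have h8 : κ ^ (2 * (g j / 2)) * L (2 * (g j / 2)) ≤ L (g j) := by linarith
      exact mul_le_mul_of_nonneg_left h8 hQ.le
    have h9 := Om_pos hs hQ (g j / 2)
    have h10 := hL1 (g j)
    rw [abs_mul, abs_of_pos h9]
    calc L (g j) ^ k * (Om Q κ L (g j / 2) * |u (Sum.inr j) t|)
        ≤ L (g j) ^ k * (Q * L (g j) * |u (Sum.inr j) t|) := by gcongr
      _ = Q * (L (g j) ^ (k + 1) * |u (Sum.inr j) t|) := by ring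
      _ ≤ Q * |K1| := by
        have := h2.trans (le_abs_self K1)
        gcongr

end alg

/-! ### Derivatives -/

section der

variable {J : Type} {g : J → ℕ} {σ : J → J} {τ : J → ℝ} {T : ℝ} {u u' : Ix J → ℝ → ℝ}

theorem d_pm (h : ∀ i, ∀ t ∈ Ico 0 T, HasDerivWithinAt (u i) (u' i t) (Ico 0 T) t) :
    ∀ i, ∀ t ∈ Ico 0 T, HasDerivWithinAt (fun s => Pm (fun b => u b s) i)
      (Pm (fun b => u' b t) i) (Ico 0 T) t := by
  intro i t ht
  cases i with
  | inl n => exact h (Sum.inl n) t ht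
  | inr j => exact hasDerivWithinAt_const _ _ _

theorem d_wt (ω : ℕ → ℝ) (h : ∀ i, ∀ t ∈ Ico 0 T, HasDerivWithinAt (u i) (u' i t) (Ico 0 T) t) :
    ∀ i, ∀ t ∈ Ico 0 T, HasDerivWithinAt (fun s => wt g ω (fun b => u b s) i)
      (wt g ω (fun b => u' b t) i) (Ico 0 T) t := by
  intro i t ht
  cases i with
  | inl n => exact hasDerivWithinAt_const _ _ _
  | inr j => exact (h (Sum.inr j) t ht).const_mul (ω (g j / 2))

theorem d_rt (h : ∀ i, ∀ t ∈ Ico 0 T, HasDerivWithinAt (u i) (u' i t) (Ico 0 T) t) :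
    ∀ i, ∀ t ∈ Ico 0 T, HasDerivWithinAt (fun s => rt σ τ (fun b => u b s) i)
      (rt σ τ (fun b => u' b t) i) (Ico 0 T) t := by
  intro i t ht
  cases i with
  | inl n => exact hasDerivWithinAt_const _ _ _
  | inr j => exact (h (Sum.inr (σ j)) t ht).const_mul (τ j)

end der

/-! ### The equation -/

theorem t_NF : S_RAP → S_CALC → S_NF := by
  intro hrap hcalc J g σ τ κ μ lam Λ M a D₁ L C ℓ B D c hK hs hr hd Q T z hQ hz G
  obtain ⟨rN, rR, rZ, rPm, rPo, rRt, rWt, rBl, rLin, sPm, sPo, sRt, sWt, sBl, sLin, sRr⟩ :=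
    hrap J g σ τ κ μ lam Λ M a D₁ L C ℓ B D c hK hs hr hd
  have hs5 := sq65 hs
  have hL0 := Pool.Agent.Y710.EP.L_nn hs5
  -- the derivative
  let z' : Ix J → ℝ → ℝ := fun i t => Az Q κ L g σ τ (fun b => z b t) i +
    rr D c (fun b => z b t) i
  have hz' : ∀ i, ∀ t ∈ Ico 0 T, HasDerivWithinAt (z i) (z' i t) (Ico 0 T) t := by
    intro i t ht
    convert hz.deriv i t ht using 1
    show Az Q κ L g σ τ (fun b => z b t) i +
      (bl c (fun b => z b t) (fun b => z b t) i - lin D (fun b => z b t) i) = _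
    ring
  have uz : RpU g L T z := rZ T Q z hz
  have uz' : RpU g L T z' := by
    have h1 : RpU g L T (fun i t => wt g (Om Q κ L) (fun b => rt σ τ (fun b => z b t) b) i) :=
      RpU.om hs hQ (rRt T z uz)
    have h2 : RpU g L T (fun i t => wt g (Om Q κ L) (rt σ τ (fun b => z b t)) i +
        (bl c (fun b => z b t) (fun b => z b t) i + -lin D (fun b => z b t) i)) :=
      RpU.add h1 (RpU.add (rBl T z z uz uz) (RpU.neg (rLin T z uz)) hL0) hL0
    convert h2 using 3 with i t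
    show Az Q κ L g σ τ (fun b => z b t) i +
      (bl c (fun b => z b t) (fun b => z b t) i - lin D (fun b => z b t) i) = _
    rw [Az_eq]
    ring
  have hα := wα_le (Q := Q) hs hQ G
  have hβ := wβ_le (Q := Q) hs hQ G
  -- the vectors
  have hm := d_pm hz'
  have hA := d_wt (g := g) (wα (Om Q κ L) G) hz'
  have hB := d_wt (g := g) (wβ (Om Q κ L) G) (d_rt (σ := σ) (τ := τ) hz')
  have um := rPm T z uz
  have um' := rPm T z' uz'
  have uA := rWt T z _ _ hα uz
  have uA' := rWt T z' _ _ hα uz'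
  have uB := rWt T _ _ _ hβ (rRt T z uz)
  have uB' := rWt T _ _ _ hβ (rRt T z' uz')
  have c1 := hcalc J g κ μ lam Λ M a D₁ L C ℓ B D c hK hs hd T _ _ _ _ um um um' um' hm hm
  have c2 := hcalc J g κ μ lam Λ M a D₁ L C ℓ B D c hK hs hd T _ _ _ _ um uA um' uA' hm hA
  have c3 := hcalc J g κ μ lam Λ M a D₁ L C ℓ B D c hK hs hd T _ _ _ _ uA um uA' um' hA hm
  have c4 := hcalc J g κ μ lam Λ M a D₁ L C ℓ B D c hK hs hd T _ _ _ _ um uB um' uB' hm hB
  have c5 := hcalc J g κ μ lam Λ M a D₁ L C ℓ B D c hK hs hd T _ _ _ _ uB um uB' um' hB hm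
  -- the right sides
  have eP : ∀ t, Pm (fun b => z' b t) = Pm (rr D c (fun b => z b t)) := fun t => Pm_Az _ _
  have eA : ∀ t, wt g (wα (Om Q κ L) G) (fun b => z' b t) =
      fun i => Om Q κ L G * wt g (wβ (Om Q κ L) G) (rt σ τ (fun b => z b t)) i +
        wt g (wα (Om Q κ L) G) (rr D c (fun b => z b t)) i := fun t => wtα_Az G _ _
  have eB : ∀ t, wt g (wβ (Om Q κ L) G) (rt σ τ (fun b => z' b t)) =
      fun i => (-Om Q κ L G * wt g (wα (Om Q κ L) G) (fun b => z b t) i +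
        (Po (fun b => z b t) i + -1 * wt g (w1 G) (fun b => z b t) i)) +
        wt g (wβ (Om Q κ L) G) (rt σ τ (rr D c (fun b => z b t))) i :=
    fun t => wtβ_Az hs hr hQ G _ _
  -- derivatives of `X1` and `X2`
  have hX1 : ∀ i, ∀ t ∈ Ico 0 T, HasDerivWithinAt
      (fun s => X1 g D c (Om Q κ L) G (fun b => z b s) i)
      (E1 g D c (Om Q κ L) G (fun b => z b t) i
        + Om Q κ L G * X2 g σ τ c (Om Q κ L) G (fun b => z b t) i) (Ico 0 T) t := by
    intro i t ht
    have d1 := ((c1.1 i t ht).sub (c1.2 i t ht)).const_mul (1 / Om Q κ L G)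
    have d2 := (c2.1 i t ht).add (c3.1 i t ht)
    have d3 := d1.add d2
    have rz := rR T z uz t ht
    have rrz := sRr _ rz
    have n1 := rN _ (sPm _ rz)
    have n2 := rN _ (sWt _ _ _ hβ (sRt _ rz))
    have n3 := rN _ (sWt _ _ _ hα rrz)
    have n2' : Nice g L (fun i => Om Q κ L G * wt g (wβ (Om Q κ L) G) (rt σ τ (fun b => z b t)) i) := by
      have h5 : Summable (fun a => Om Q κ L G *
        (L (gr g a) * |wt g (wβ (Om Q κ L) G) (rt σ τ (fun b => z b t)) a|)) :=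
        Summable.mul_left _ n2
      refine h5.congr fun a => ?_
      rw [abs_mul, abs_of_pos (Om_pos hs hQ G)]
      ring
    have key : bs c (Pm (fun b => z b t)) (wt g (wα (Om Q κ L) G) (fun b => z' b t)) i =
        Om Q κ L G * X2 g σ τ c (Om Q κ L) G (fun b => z b t) i +
        bs c (Pm (fun b => z b t)) (wt g (wα (Om Q κ L) G) (rr D c (fun b => z b t))) i := by
      rw [eA, bs_add hK hs n1 n2' n3, bs_mul]
      rfl
    refine HasDerivWithinAt.congr_deriv d3 ?_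
    have e1 : bl c (Pm (fun b => z' b t)) (Pm (fun b => z b t)) i +
        bl c (Pm (fun b => z b t)) (Pm (fun b => z' b t)) i =
        bs c (Pm (fun b => z b t)) (Pm (rr D c (fun b => z b t))) i := by
      rw [eP]
      unfold bs
      ring
    have e2 : bl c (Pm (fun b => z' b t)) (wt g (wα (Om Q κ L) G) (fun b => z b t)) i +
        bl c (wt g (wα (Om Q κ L) G) (fun b => z b t)) (Pm (fun b => z' b t)) i =
        bs c (Pm (rr D c (fun b => z b t))) (wt g (wα (Om Q κ L) G) (fun b => z b t)) i := by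
      rw [eP]
      rfl
    have e3 : lin D (Pm (fun b => z' b t)) i = lin D (Pm (rr D c (fun b => z b t))) i := by
      rw [eP]
    have e4 : bl c (Pm (fun b => z b t)) (wt g (wα (Om Q κ L) G) (fun b => z' b t)) i +
        bl c (wt g (wα (Om Q κ L) G) (fun b => z' b t)) (Pm (fun b => z b t)) i =
        Om Q κ L G * X2 g σ τ c (Om Q κ L) G (fun b => z b t) i +
        bs c (Pm (fun b => z b t)) (wt g (wα (Om Q κ L) G) (rr D c (fun b => z b t))) i := by
      rw [← key]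
      rfl
    show 1 / Om Q κ L G * ((bl c (Pm (fun b => z' b t)) (Pm (fun b => z b t)) i +
        bl c (Pm (fun b => z b t)) (Pm (fun b => z' b t)) i) - lin D (Pm (fun b => z' b t)) i) +
      ((bl c (Pm (fun b => z' b t)) (wt g (wα (Om Q κ L) G) (fun b => z b t)) i +
        bl c (Pm (fun b => z b t)) (wt g (wα (Om Q κ L) G) (fun b => z' b t)) i) +
      (bl c (wt g (wα (Om Q κ L) G) (fun b => z' b t)) (Pm (fun b => z b t)) i +
        bl c (wt g (wα (Om Q κ L) G) (fun b => z b t)) (Pm (fun b => z' b t)) i)) =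
      (1 / Om Q κ L G * (bs c (Pm (fun b => z b t)) (Pm (rr D c (fun b => z b t))) i -
        lin D (Pm (rr D c (fun b => z b t))) i)
      + bs c (Pm (rr D c (fun b => z b t))) (wt g (wα (Om Q κ L) G) (fun b => z b t)) i +
        bs c (Pm (fun b => z b t)) (wt g (wα (Om Q κ L) G) (rr D c (fun b => z b t))) i) +
      Om Q κ L G * X2 g σ τ c (Om Q κ L) G (fun b => z b t) i
    rw [e1, e3]
    linear_combination e2 + e4
  have hX2 : ∀ i, ∀ t ∈ Ico 0 T, HasDerivWithinAt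
      (fun s => X2 g σ τ c (Om Q κ L) G (fun b => z b s) i)
      (E2 g σ τ D c (Om Q κ L) G (fun b => z b t) i
        + (-Om Q κ L G * bs c (Pm (fun b => z b t)) (wt g (wα (Om Q κ L) G) (fun b => z b t)) i
          + (bs c (Pm (fun b => z b t)) (Po (fun b => z b t)) i
            - bs c (Pm (fun b => z b t)) (wt g (w1 G) (fun b => z b t)) i))) (Ico 0 T) t := by
    intro i t ht
    have d3 := (c4.1 i t ht).add (c5.1 i t ht)
    have rz := rR T z uz t ht
    have rrz := sRr _ rz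
    have n1 := rN _ (sPm _ rz)
    have n2 := rN _ (sWt _ _ _ hα rz)
    have n3 := rN _ (sPo _ rz)
    have n4 := rN _ (sWt _ _ _ (w1_le G) rz)
    have n5 := rN _ (sWt _ _ _ hβ (sRt _ rrz))
    have n2' : Nice g L (fun i => -Om Q κ L G * wt g (wα (Om Q κ L) G) (fun b => z b t) i) := by
      have h5 : Summable (fun a => Om Q κ L G *
        (L (gr g a) * |wt g (wα (Om Q κ L) G) (fun b => z b t) a|)) :=
        Summable.mul_left _ n2
      refine h5.congr fun a => ?_
      rw [abs_mul, abs_neg, abs_of_pos (Om_pos hs hQ G)]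
      ring
    have n4' : Nice g L (fun i => -1 * wt g (w1 G) (fun b => z b t) i) := by
      refine Summable.congr n4 fun a => ?_
      rw [abs_mul, abs_neg, abs_one, one_mul]
    have n34 := n3.add hs5 n4'
    have n234 := n2'.add hs5 n34
    have key : bs c (Pm (fun b => z b t)) (wt g (wβ (Om Q κ L) G) (rt σ τ (fun b => z' b t))) i =
        (-Om Q κ L G * bs c (Pm (fun b => z b t)) (wt g (wα (Om Q κ L) G) (fun b => z b t)) i
          + (bs c (Pm (fun b => z b t)) (Po (fun b => z b t)) i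
            - bs c (Pm (fun b => z b t)) (wt g (w1 G) (fun b => z b t)) i)) +
        bs c (Pm (fun b => z b t)) (wt g (wβ (Om Q κ L) G) (rt σ τ (rr D c (fun b => z b t)))) i := by
      rw [eB, bs_add hK hs n1 n234 n5, bs_add hK hs n1 n2' n34, bs_add hK hs n1 n3 n4', bs_mul,
        bs_mul]
      ring
    refine HasDerivWithinAt.congr_deriv d3 ?_
    have e2 : bl c (Pm (fun b => z' b t)) (wt g (wβ (Om Q κ L) G) (rt σ τ (fun b => z b t))) i +
        bl c (wt g (wβ (Om Q κ L) G) (rt σ τ (fun b => z b t))) (Pm (fun b => z' b t)) i =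
        bs c (Pm (rr D c (fun b => z b t)))
          (wt g (wβ (Om Q κ L) G) (rt σ τ (fun b => z b t))) i := by
      rw [eP]
      rfl
    show (bl c (Pm (fun b => z' b t)) (wt g (wβ (Om Q κ L) G) (rt σ τ (fun b => z b t))) i +
        bl c (Pm (fun b => z b t)) (wt g (wβ (Om Q κ L) G) (rt σ τ (fun b => z' b t))) i) +
      (bl c (wt g (wβ (Om Q κ L) G) (rt σ τ (fun b => z' b t))) (Pm (fun b => z b t)) i +
        bl c (wt g (wβ (Om Q κ L) G) (rt σ τ (fun b => z b t))) (Pm (fun b => z' b t)) i) =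
      (bs c (Pm (rr D c (fun b => z b t))) (wt g (wβ (Om Q κ L) G) (rt σ τ (fun b => z b t))) i
      + bs c (Pm (fun b => z b t))
        (wt g (wβ (Om Q κ L) G) (rt σ τ (rr D c (fun b => z b t)))) i) + _
    have key' : bl c (Pm (fun b => z b t)) (wt g (wβ (Om Q κ L) G) (rt σ τ (fun b => z' b t))) i +
        bl c (wt g (wβ (Om Q κ L) G) (rt σ τ (fun b => z' b t))) (Pm (fun b => z b t)) i = _ := key
    linear_combination e2 + key'
  -- the equation
  intro i t ht
  cases i with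
  | inl n =>
    refine HasDerivWithinAt.congr_deriv (hasDerivWithinAt_const _ _ (0 : ℝ)) ?_
    show (0 : ℝ) = Om Q κ L G * 0 + 0
    ring
  | inr j =>
    by_cases hj : g j / 2 = G
    · have hσ : g (σ j) / 2 = G := by rw [hr.grp, hj]
      have w1j : w1 G (g j / 2) = 1 := by unfold w1; rw [if_pos hj]
      have w1σ : w1 G (g (σ j) / 2) = 1 := by unfold w1; rw [if_pos hσ]
      have d := ((hz' (Sum.inr j) t ht).sub ((hX1 (Sum.inr (σ j)) t ht).const_mul (τ j))).sub
        (hX2 (Sum.inr j) t ht)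
      have d2 := d.const_mul (w1 G (g j / 2))
      refine HasDerivWithinAt.congr_deriv d2 ?_
      have rz := rR T z uz t ht
      have n1 := rN _ (sPm _ rz)
      have n3 := rN _ (sPo _ rz)
      have f1 := bl_four (c := c) hK hs n1 n3 (Sum.inr j)
      have f2 := lin_two hK hd (fun b => z b t) (Sum.inr j)
      have hO := (Om_pos (Q := Q) hs hQ G).ne'
      have f3 : Om Q κ L G * X1 g D c (Om Q κ L) G (fun b => z b t) (Sum.inr j) =
          bl c (Pm (fun b => z b t)) (Pm (fun b => z b t)) (Sum.inr j) -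
            lin D (Pm (fun b => z b t)) (Sum.inr j) +
          Om Q κ L G * bs c (Pm (fun b => z b t)) (wt g (wα (Om Q κ L) G) (fun b => z b t))
            (Sum.inr j) := by
        unfold X1
        field_simp
      show w1 G (g j / 2) * (((Om Q κ L (g j / 2) * τ j * z (Sum.inr (σ j)) t +
          (bl c (fun b => z b t) (fun b => z b t) (Sum.inr j) -
            lin D (fun b => z b t) (Sum.inr j))) -
          τ j * (E1 g D c (Om Q κ L) G (fun b => z b t) (Sum.inr (σ j)) +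
            Om Q κ L G * X2 g σ τ c (Om Q κ L) G (fun b => z b t) (Sum.inr (σ j)))) -
          (E2 g σ τ D c (Om Q κ L) G (fun b => z b t) (Sum.inr j)
        + (-Om Q κ L G * bs c (Pm (fun b => z b t)) (wt g (wα (Om Q κ L) G) (fun b => z b t))
            (Sum.inr j)
          + (bs c (Pm (fun b => z b t)) (Po (fun b => z b t)) (Sum.inr j)
            - bs c (Pm (fun b => z b t)) (wt g (w1 G) (fun b => z b t)) (Sum.inr j))))) =
        Om Q κ L G * (τ j * (w1 G (g (σ j) / 2) * (z (Sum.inr (σ j)) t -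
          τ (σ j) * X1 g D c (Om Q κ L) G (fun b => z b t) (Sum.inr (σ (σ j))) -
          X2 g σ τ c (Om Q κ L) G (fun b => z b t) (Sum.inr (σ j))))) +
        w1 G (g j / 2) * (-lin D (Po (fun b => z b t)) (Sum.inr j) +
          bs c (Pm (fun b => z b t)) (wt g (w1 G) (fun b => z b t)) (Sum.inr j) +
          bl c (Po (fun b => z b t)) (Po (fun b => z b t)) (Sum.inr j) -
          τ j * E1 g D c (Om Q κ L) G (fun b => z b t) (Sum.inr (σ j)) -
          E2 g σ τ D c (Om Q κ L) G (fun b => z b t) (Sum.inr j))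
      rw [w1j, w1σ, hr.inv, hr.skew, hj]
      have h2 := hr.unit j
      linear_combination f1 - f2 - f3 -
        Om Q κ L G * X1 g D c (Om Q κ L) G (fun b => z b t) (Sum.inr j) * h2
    · have hσ : g (σ j) / 2 ≠ G := by rw [hr.grp]; exact hj
      have w1j : w1 G (g j / 2) = 0 := by unfold w1; rw [if_neg hj]
      have w1σ : w1 G (g (σ j) / 2) = 0 := by unfold w1; rw [if_neg hσ]
      have e0 : (fun s => vv g σ τ D c (Om Q κ L) G (fun b => z b s) (Sum.inr j)) =
          fun _ => (0 : ℝ) := by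
        funext s
        show w1 G (g j / 2) * _ = 0
        rw [w1j, zero_mul]
      rw [e0]
      refine HasDerivWithinAt.congr_deriv (hasDerivWithinAt_const _ _ (0 : ℝ)) ?_
      show (0 : ℝ) = Om Q κ L G * (τ j * (w1 G (g (σ j) / 2) * _)) + w1 G (g j / 2) * _
      rw [w1j, w1σ]
      ring

end Pool.Agent.Y438.SK
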